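import Pool.Agent.H225.GX3

/-!
# Almost prime pairs between consecutive squares with fixed sum and exact neighbourhoods

Let `b ≥ 2` be a base, `N ≤ b^{DK}` ANY number and `[M, M + b^K)` any block of integers in `[0, 2 N]`.  Let
`k = M + n`, where the digits of `n < b^K` are restricted: the `i`-th digit belongs to a set `A i`, where the
sets `A i` are arbitrary, depend on the place `i < K`, and have the only property that the number `∏ |A i|`
of these `n` is at least `e^{-δK} b^K`, where the constant `δ > 0` does not depend on `b`.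

Let `H` and `G` be ANY sets of integers in `[0, c K]`, together of `q` elements, such that for each prime `p`
there is a `k` for which `p` divides none of the numbers `N^2 + k + 1 + h`, `(N + 1)^2 - k + g`.  Then the
sieve product `V` is at least `κ / K^q`, and (if the last digit can be chosen such that these numbers are
prime to `b`) for at least `κ V ∏ |A i|` of these `k` the numbers `N^2 + k + 1 + h`, `(N + 1)^2 - k + g` have at
most `r` prime factors, all larger than `b^{K/r}`, while ALL other numbers `N^2 + k + 1 + j` and ALL other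
numbers `(N + 1)^2 - k + j`, `0 ≤ j ≤ c K`, have a prime factor `≤ b^{K/r}`.  For at most `C V ∏ |A i|` of these
`k` all these numbers are primes.  The constants do not depend on `N`, `M`, `H`, `G`.

The method is a Brun–Hooley sieve with weights, whose level of distribution is obtained from the Fourier
transform of the set of the integers with restricted digits at rationals (large sieve in blocks of
digits), see `Pool/Agent/Y816/PD`; the other numbers are excluded by the upper bound for patterns with one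
more element on one of the two sides and an average of the sieve products, see `Pool/Agent/H225/GX2`, `GX3`.
-/

set_option autoImplicit false

namespace Pool.Agent.Results.MP_e94e4b_nt.ExactNeighbourhoods

open Finset Filter

/-- `p` divides one of the numbers `y + h`, `N + g - y`, where `h ∈ H`, `g ∈ G`. -/
def Bad (N : ℕ) (H G : Finset ℕ) (p y : ℕ) : Prop :=
  (∃ h ∈ H, p ∣ y + h) ∨ ∃ g ∈ G, y ≡ N + g [MOD p]

/-- No prime is bad for all `y`. -/
def Admissible (N : ℕ) (H G : Finset ℕ) : Prop := ∀ p : ℕ, p.Prime → ∃ y : ℕ, ¬ Bad N H G p y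

open Classical in
/-- The number of the `y` modulo `p` for which `p` is bad. -/
noncomputable def nu (N : ℕ) (H G : Finset ℕ) (p : ℕ) : ℕ :=
  ((range p).filter (fun y : ℕ => Bad N H G p y)).card

/-- The product of `1 - nu p / p` over the primes `p ≤ x`. -/
noncomputable def V (N : ℕ) (H G : Finset ℕ) (x : ℕ) : ℝ :=
  ∏ p ∈ (Icc 1 x).filter Nat.Prime, (1 - (nu N H G p : ℝ) / p)

open Classical in
/-- The number of the `n < b ^ K` in `T`, whose `i`-th digit in base `b` belongs to `A i` for all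
`i < K`. -/
noncomputable def count (b K : ℕ) (A : ℕ → Finset ℕ) (T : Set ℕ) : ℕ :=
  ((range (b ^ K)).filter (fun n => (∀ i < K, n / b ^ i % b ∈ A i) ∧ n ∈ T)).card

/-- The number of choices of the digits. -/
noncomputable def choices (K : ℕ) (A : ℕ → Finset ℕ) : ℝ := ∏ i ∈ range K, ((A i).card : ℝ)

/-- All prime factors of `m` are larger than `z ^ (1 / r)`. -/
def Rough (r z m : ℕ) : Prop := ∀ p : ℕ, p.Prime → p ∣ m → z < p ^ r

/-- `m` has at most `r` prime factors, all larger than `z ^ (1 / r)`. -/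
def AlmostPrime (r z m : ℕ) : Prop := Rough r z m ∧ m.primeFactorsList.length ≤ r

open Pool.Agent.Y816.PD (ND ND_sub)

/-- **Almost prime pairs between consecutive squares with fixed sum and exact neighbourhoods.** -/
theorem result (q D : ℕ) (hq : 1 ≤ q) :
    ∃ δ : ℝ, 0 < δ ∧ ∃ r₀ : ℕ, 2 ≤ r₀ ∧ ∀ r : ℕ, r₀ ≤ r → ∀ b : ℕ, 2 ≤ b →
      ∃ κ C c : ℝ, 0 < κ ∧ 0 < C ∧ 0 < c ∧ ∀ᶠ K : ℕ in atTop, ∀ N M : ℕ, M + b ^ K ≤ 2 * N →
        N ≤ b ^ (D * K) → ∀ H G : Finset ℕ, H.card + G.card = q →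
        (∀ h ∈ H, (h : ℝ) ≤ c * K) → (∀ g ∈ G, (g : ℝ) ≤ c * K) →
        Admissible (2 * N ^ 2 + 2 * N + 2) H G →
        ∀ A : ℕ → Finset ℕ, (∀ i < K, A i ⊆ range b) →
        (b : ℝ) ^ K ≤ Real.exp (δ * K) * choices K A →
        κ / (K : ℝ) ^ q ≤ V (2 * N ^ 2 + 2 * N + 2) H G (b ^ K) ∧
        ((∃ e ∈ A 0, (∀ h ∈ H, (N ^ 2 + (M + e) + 1 + h).Coprime b) ∧
            ∀ g ∈ G, ((N + 1) ^ 2 + g - (M + e)).Coprime b) →
          (∃ e ∈ A (K - 1), e ≠ 0) →
          κ * choices K A * V (2 * N ^ 2 + 2 * N + 2) H G (b ^ K) ≤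
            count b K A {n | (2 ≤ M + n ∧ M + n ≤ 2 * N) ∧
              (∀ h ∈ H, AlmostPrime r (b ^ K) (N ^ 2 + (M + n) + 1 + h)) ∧
              (∀ g ∈ G, AlmostPrime r (b ^ K) ((N + 1) ^ 2 + g - (M + n))) ∧
              (∀ j : ℕ, (j : ℝ) ≤ c * K → j ∉ H → ¬ Rough r (b ^ K) (N ^ 2 + (M + n) + 1 + j)) ∧
              ∀ j : ℕ, (j : ℝ) ≤ c * K → j ∉ G → ¬ Rough r (b ^ K) ((N + 1) ^ 2 + j - (M + n))}) ∧
        (count b K A {n | (∀ h ∈ H, (N ^ 2 + (M + n) + 1 + h).Prime) ∧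
            ∀ g ∈ G, ((N + 1) ^ 2 + g - (M + n)).Prime} : ℝ) ≤
          C * choices K A * V (2 * N ^ 2 + 2 * N + 2) H G (b ^ K) := by
  obtain ⟨δ, hδ, r₀, hr₀, h⟩ := Pool.Agent.H225.GX.exact q (2 * D + 3) hq
  refine ⟨δ, hδ, r₀, hr₀, fun r hr b hb => ?_⟩
  obtain ⟨κ, C, c, hκ, hC, hc, h1⟩ := h r hr b hb
  refine ⟨κ, C, c, hκ, hC, hc, ?_⟩
  filter_upwards [h1, eventually_ge_atTop 6] with K hK hK6 N M hMN hN H G hHk hHc hGc hadm A hA hprod
  have hbK : 32 ≤ b ^ (K - 1) := by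
    calc 32 = 2 ^ 5 := by norm_num
      _ ≤ 2 ^ (K - 1) := Nat.pow_le_pow_right (by norm_num) (by omega)
      _ ≤ b ^ (K - 1) := Nat.pow_le_pow_left hb _
  have hbK' : b ^ (K - 1) ≤ b ^ K := Nat.pow_le_pow_right (by omega) (by omega)
  have hsq : (N + 1) ^ 2 = N ^ 2 + 2 * N + 1 := by ring
  have hN16 : 16 ≤ N := by omega
  have hNN : 16 * N ≤ N ^ 2 := by nlinarith
  have hS : 2 * N ^ 2 + 2 * N + 2 ≤ b ^ ((2 * D + 3) * K) := by
    have e : b ^ ((2 * D + 3) * K) = (b ^ (D * K)) ^ 2 * (b ^ K * (b ^ K * b ^ K)) := by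
      rw [← pow_mul, ← pow_add, ← pow_add, ← pow_add]
      congr 1
      ring
    rw [e]
    have h2 : N ^ 2 ≤ (b ^ (D * K)) ^ 2 := Nat.pow_le_pow_left hN 2
    have h3 : 6 ≤ b ^ K * (b ^ K * b ^ K) := by
      have : 32 ≤ b ^ K := hbK.trans hbK'
      calc 6 ≤ 32 * (32 * 32) := by norm_num
        _ ≤ _ := Nat.mul_le_mul this (Nat.mul_le_mul this this)
    calc 2 * N ^ 2 + 2 * N + 2 ≤ N ^ 2 * 6 := by omega
      _ ≤ _ := Nat.mul_le_mul h2 h3
  obtain ⟨h2, h3, h4⟩ := hK (N ^ 2 + 1 + M) (2 * N ^ 2 + 2 * N + 2) (by omega) hS H G hHk hHc hGc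
    hadm A hA hprod
  have e1 : ∀ n h : ℕ, N ^ 2 + 1 + M + n + h = N ^ 2 + (M + n) + 1 + h := fun n h => by ring
  have e2 : ∀ n g : ℕ, 2 * N ^ 2 + 2 * N + 2 + g - (N ^ 2 + 1 + M + n) = (N + 1) ^ 2 + g - (M + n) :=
    fun n g => by omega
  simp only [e1, e2] at h3 h4
  refine ⟨h2, fun hcop htop => (h3 hcop htop).trans (Nat.cast_le.2 (ND_sub fun n hn hn1 hn2 =>
    ⟨hn1, ?_, hn2.2⟩)), le_trans (Nat.cast_le.2 ?_) h4⟩
  · have h5 := hn2.1
    constructor <;> omega
  · refine ND_sub fun n hn hn1 hn2 => ⟨hn1, fun h hh p hp hpd => ?_, fun g hg p hp hpd => ?_⟩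
    · have hpr : (N ^ 2 + (M + n) + 1 + h).Prime := hn2.1 h hh
      rw [(Nat.prime_dvd_prime_iff_eq hp hpr).1 hpd]
      have h6 : (N ^ 2 + (M + n) + 1 + h) ^ 2 ≤ (N ^ 2 + (M + n) + 1 + h) ^ r :=
        Nat.pow_le_pow_right hpr.pos (hr₀.trans hr)
      have h7 := hpr.two_le
      have h8 : n ≤ N ^ 2 + (M + n) + 1 + h := by omega
      nlinarith
    · have hpr : ((N + 1) ^ 2 + g - (M + n)).Prime := hn2.2 g hg
      rw [(Nat.prime_dvd_prime_iff_eq hp hpr).1 hpd]
      have h5 : n ≤ (N + 1) ^ 2 + g - (M + n) := by omega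
      have h6 : ((N + 1) ^ 2 + g - (M + n)) ^ 2 ≤ ((N + 1) ^ 2 + g - (M + n)) ^ r :=
        Nat.pow_le_pow_right hpr.pos (hr₀.trans hr)
      have h7 := hpr.two_le
      nlinarith

end Pool.Agent.Results.MP_e94e4b_nt.ExactNeighbourhoods
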