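import Pool.Agent.V11237.LP.Gold

set_option autoImplicit false

/-!
# Almost prime pairs `N ^ 2 + k + 1`, `(N + 1) ^ 2 - k` for every large `N`: their number and the laws of
their gaps
-/

namespace Pool.Agent.Results.MP_e94e4b_nt.PairLawsEveryN

open Finset
open Pool.Agent.V11237.LP

/-- Neither `N ^ 2 + k + 1` nor `(N + 1) ^ 2 - k` has a prime factor `p ≤ (N + 1) ^ (2 / r)`. -/
def Good (N r : ℕ) (k : ℤ) : Prop :=
  ∀ p : ℕ, p.Prime → (p : ℝ) ≤ (((N + 1) ^ 2 : ℕ) : ℝ) ^ (1 / (r : ℝ)) →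
    ¬ (p : ℤ) ∣ N ^ 2 + k + 1 ∧ ¬ (p : ℤ) ∣ (N + 1) ^ 2 - k

open Classical in
/-- The number of the good `k` with `2 ≤ k ≤ 2 N` and with fewer than `l` good integers in
`[k - T, k)`. -/
noncomputable def G (N r l T : ℕ) : ℕ :=
  ((Icc (2 : ℤ) (2 * N)).filter (fun k => Good N r k ∧
    ((Ico (k - T) k).filter (fun s => Good N r s)).card < l)).card

open Classical in
/-- The density: the product over the primes `p ≤ (N + 1) ^ (2 / r)` of `1 - 1 / p` if `p` divides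
`2 N ^ 2 + 2 N + 2` and of `1 - 2 / p` otherwise. -/
noncomputable def V (N r : ℕ) : ℝ :=
  ∏ p ∈ (Icc 1 ⌊(((N + 1) ^ 2 : ℕ) : ℝ) ^ (1 / (r : ℝ))⌋₊).filter Nat.Prime,
    (1 - (if p ∣ 2 * N ^ 2 + 2 * N + 2 then 1 else 2) / (p : ℝ))

lemma good_iff (N r m : ℕ) : Gold.Good (2 * N ^ 2 + 2 * N + 2) ((N + 1) ^ 2) r m ↔
    Good N r ((m : ℤ) - (N ^ 2 + 1)) := by
  unfold Gold.Good Good
  refine forall_congr' fun p => forall_congr' fun _ => forall_congr' fun _ => ?_
  rw [← Int.natCast_dvd_natCast]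
  have e1 : (N : ℤ) ^ 2 + ((m : ℤ) - (N ^ 2 + 1)) + 1 = m := by ring
  have e2 : ((N : ℤ) + 1) ^ 2 - ((m : ℤ) - (N ^ 2 + 1)) =
      ((2 * N ^ 2 + 2 * N + 2 : ℕ) : ℤ) - m := by
    push_cast
    ring
  rw [e1, e2]

lemma G_eq (N r l T : ℕ) (hT : T ≤ N ^ 2 + 3) :
    Gold.G (2 * N ^ 2 + 2 * N + 2) ((N + 1) ^ 2) r l T (N ^ 2 + 2) (2 * N - 1) = G N r l T := by
  classical
  unfold Gold.G G
  apply Finset.card_bij (fun (m : ℕ) _ => ((m : ℤ) - ((N : ℤ) ^ 2 + 1)))
  · intro m hm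
    rw [mem_filter, mem_Ioc] at hm
    rw [mem_filter, mem_Icc]
    obtain ⟨⟨h1, h2⟩, h3, h4⟩ := hm
    refine ⟨⟨?_, ?_⟩, (good_iff N r m).1 h3, ?_⟩
    · have : ((N ^ 2 + 2 : ℕ) : ℤ) < m := by exact_mod_cast h1
      push_cast at this
      linarith
    · have : m + 1 ≤ N ^ 2 + 2 * N + 2 := by omega
      have : ((m + 1 : ℕ) : ℤ) ≤ ((N ^ 2 + 2 * N + 2 : ℕ) : ℤ) := by exact_mod_cast this
      push_cast at this
      linarith
    · refine lt_of_le_of_lt (le_of_eq ?_) h4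
      symm
      apply Finset.card_bij (fun (s : ℕ) _ => ((s : ℤ) - ((N : ℤ) ^ 2 + 1)))
      · intro s hs
        rw [mem_filter, mem_Ico] at hs
        rw [mem_filter, mem_Ico]
        refine ⟨⟨?_, ?_⟩, (good_iff N r s).1 hs.2⟩
        · have : ((m : ℕ) : ℤ) ≤ s + T := by
            have := hs.1.1
            exact_mod_cast (by omega : m ≤ s + T)
          linarith
        · have : (s : ℤ) < m := by exact_mod_cast hs.1.2
          linarith
      · intro a _ b _ h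
        have : (a : ℤ) = b := by linarith
        exact_mod_cast this
      · intro s hs
        rw [mem_filter, mem_Ico] at hs
        obtain ⟨⟨h5, h6⟩, h7⟩ := hs
        have h8 : (0 : ℤ) ≤ s + (N ^ 2 + 1) := by
          have : (T : ℤ) ≤ N ^ 2 + 3 := by exact_mod_cast hT
          have h9 : ((N ^ 2 + 2 : ℕ) : ℤ) < m := by exact_mod_cast h1
          push_cast at h9
          linarith
        obtain ⟨s', hs'⟩ := Int.eq_ofNat_of_zero_le h8
        have hs'' : s = (s' : ℤ) - (N ^ 2 + 1) := by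
          have : s + ((N : ℤ) ^ 2 + 1) = s' := hs'
          linarith
        refine ⟨s', ?_, hs''.symm⟩
        rw [mem_filter, mem_Ico]
        refine ⟨⟨?_, ?_⟩, (good_iff N r s').2 (by rw [← hs'']; exact h7)⟩
        · have : ((m : ℕ) : ℤ) ≤ s' + T := by linarith
          have : m ≤ s' + T := by exact_mod_cast this
          omega
        · have : (s' : ℤ) < m := by linarith
          exact_mod_cast this
  · intro a _ b _ h
    have : (a : ℤ) = b := by linarith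
    exact_mod_cast this
  · intro k hk
    rw [mem_filter, mem_Icc] at hk
    obtain ⟨⟨h1, h2⟩, h3, h4⟩ := hk
    have h8 : (0 : ℤ) ≤ k + (N ^ 2 + 1) := by positivity
    obtain ⟨m, hm⟩ := Int.eq_ofNat_of_zero_le h8
    have hk' : k = (m : ℤ) - (N ^ 2 + 1) := by
      have : k + ((N : ℤ) ^ 2 + 1) = m := hm
      linarith
    have hm1 : N ^ 2 + 2 < m := by
      have : ((N ^ 2 + 2 : ℕ) : ℤ) < m := by
        push_cast
        linarith
      exact_mod_cast this
    have hm2 : m ≤ N ^ 2 + 2 * N + 1 := by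
      have : (m : ℤ) ≤ ((N ^ 2 + 2 * N + 1 : ℕ) : ℤ) := by
        push_cast
        linarith
      exact_mod_cast this
    refine ⟨m, ?_, hk'.symm⟩
    rw [mem_filter, mem_Ioc]
    refine ⟨⟨hm1, by omega⟩, (good_iff N r m).2 (by rw [← hk']; exact h3), ?_⟩
    refine lt_of_le_of_lt (le_of_eq ?_) h4
    apply Finset.card_bij (fun (s : ℕ) _ => ((s : ℤ) - ((N : ℤ) ^ 2 + 1)))
    · intro s hs
      rw [mem_filter, mem_Ico] at hs
      rw [mem_filter, mem_Ico]
      refine ⟨⟨?_, ?_⟩, (good_iff N r s).1 hs.2⟩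
      · have : ((m : ℕ) : ℤ) ≤ s + T := by
          have := hs.1.1
          exact_mod_cast (by omega : m ≤ s + T)
        linarith
      · have : (s : ℤ) < m := by exact_mod_cast hs.1.2
        linarith
    · intro a _ b _ h
      have : (a : ℤ) = b := by linarith
      exact_mod_cast this
    · intro s hs
      rw [mem_filter, mem_Ico] at hs
      obtain ⟨⟨h5, h6⟩, h7⟩ := hs
      have h8 : (0 : ℤ) ≤ s + (N ^ 2 + 1) := by
        have : (T : ℤ) ≤ N ^ 2 + 3 := by exact_mod_cast hT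
        linarith
      obtain ⟨s', hs'⟩ := Int.eq_ofNat_of_zero_le h8
      have hs'' : s = (s' : ℤ) - (N ^ 2 + 1) := by
        have : s + ((N : ℤ) ^ 2 + 1) = s' := hs'
        linarith
      refine ⟨s', ?_, hs''.symm⟩
      rw [mem_filter, mem_Ico]
      refine ⟨⟨?_, ?_⟩, (good_iff N r s').2 (by rw [← hs'']; exact h7)⟩
      · have : ((m : ℕ) : ℤ) ≤ s' + T := by linarith
        have : m ≤ s' + T := by exact_mod_cast this
        omega
      · have : (s' : ℤ) < m := by linarith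
        exact_mod_cast this

/-- **Theorem.** Let `l₀`, `x₀` and `ε > 0`. There is `r₀` such that for all `r ≥ r₀` and ALL large `N`:
for the good `k` with `2 ≤ k ≤ 2 N` the numbers `N ^ 2 + k + 1` and `(N + 1) ^ 2 - k` have at most `r`
prime factors; `V > 0`; and for all `l` and `T ≤ N ^ 2` with `l ≤ l₀` or `T V ≤ x₀` the number of the good
`k` with `2 ≤ k ≤ 2 N` and with fewer than `l` good integers in `[k - T, k)` is
`2 N V ∑_{j < l} e ^ (-T V) (T V) ^ j / j!` up to at most `2 ε N V`. (For `l = 1` and `T = 0` this is the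
number of all the good `k` between `2` and `2 N`.) -/
theorem result (l₀ : ℕ) (x₀ ε : ℝ) (hε : 0 < ε) :
    ∃ r₀ : ℕ, 2 ≤ r₀ ∧ ∀ r : ℕ, r₀ ≤ r → ∃ N₀ : ℕ, ∀ N : ℕ, N₀ ≤ N →
      ((∀ k : ℤ, 2 ≤ k → k ≤ 2 * N → Good N r k →
          ((N : ℤ) ^ 2 + k + 1).natAbs.primeFactorsList.length ≤ r ∧
          (((N : ℤ) + 1) ^ 2 - k).natAbs.primeFactorsList.length ≤ r) ∧ 0 < V N r) ∧
      ∀ l T : ℕ, T ≤ N ^ 2 → (l ≤ l₀ ∨ T * V N r ≤ x₀) →
        |(G N r l T : ℝ) - 2 * N * V N r *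
          ∑ j ∈ range l, Real.exp (-(T * V N r)) * (T * V N r) ^ j / j.factorial| ≤
        ε * (2 * N * V N r) := by
  classical
  obtain ⟨r0, hr0, h0⟩ := Gold.gaps (1 / 3) (by norm_num) l₀ x₀ (ε / 2) (by positivity)
  refine ⟨r0, hr0, ?_⟩
  intro r hr
  obtain ⟨X0, hX0⟩ := h0 r hr
  obtain ⟨N1, hN1⟩ := exists_nat_ge (1 / ε)
  refine ⟨max (max X0 N1) 9, ?_⟩
  intro N hN
  have hNX : X0 ≤ N := (le_max_left _ _).trans ((le_max_left _ _).trans hN)
  have hNN1 : N1 ≤ N := (le_max_right _ _).trans ((le_max_left _ _).trans hN)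
  have hN9 : 9 ≤ N := (le_max_right _ _).trans hN
  have hNr : (9 : ℝ) ≤ N := by exact_mod_cast hN9
  have hVeq : Gold.V (2 * N ^ 2 + 2 * N + 2) ((N + 1) ^ 2) r = V N r := rfl
  have hVpos : 0 < V N r := by
    unfold V
    apply Finset.prod_pos
    intro p hp
    have hpp : p.Prime := (mem_filter.1 hp).2
    have h2 : (0 : ℝ) < p := by exact_mod_cast hpp.pos
    rw [sub_pos, div_lt_one h2]
    split_ifs with h
    · exact_mod_cast hpp.one_lt
    · have h3 : p ≠ 2 := by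
        rintro rfl
        exact h ⟨N ^ 2 + N + 1, by ring⟩
      have := hpp.two_le
      exact_mod_cast (by omega : 2 < p)
  refine ⟨⟨?_, hVpos⟩, ?_⟩
  · intro k hk1 hk2 hg
    have h8 : (0 : ℤ) ≤ k + (N ^ 2 + 1) := by positivity
    obtain ⟨m, hm⟩ := Int.eq_ofNat_of_zero_le h8
    have hk' : k = (m : ℤ) - (N ^ 2 + 1) := by
      have : k + ((N : ℤ) ^ 2 + 1) = m := hm
      linarith
    have hm2 : m ≤ (N + 1) ^ 2 := by
      have : (m : ℤ) ≤ (((N + 1) ^ 2 : ℕ) : ℤ) := by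
        push_cast
        nlinarith
      exact_mod_cast this
    have h9 := Gold.few (f := 2 * N ^ 2 + 2 * N + 2) (X := (N + 1) ^ 2) (r := r) (m := m)
      (by omega) (by nlinarith) ((good_iff N r m).2 (by rw [← hk']; exact hg)) hm2 (by
        rw [abs_le]
        push_cast
        constructor <;> nlinarith)
    have e1 : (N : ℤ) ^ 2 + k + 1 = m := by rw [hk']; ring
    have e2 : ((N : ℤ) + 1) ^ 2 - k = ((2 * N ^ 2 + 2 * N + 2 : ℕ) : ℤ) - m := by
      rw [hk']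
      push_cast
      ring
    rw [e1, e2, Int.natAbs_natCast]
    exact h9
  · intro l T hT hlT
    have hY : (((N + 1) ^ 2 : ℕ) : ℝ) ^ (1 / 3 : ℝ) ≤ ((2 * N - 1 : ℕ) : ℝ) := by
      have e1 : (N + 1) ^ 2 ≤ (2 * N - 1) ^ 3 := by
        obtain ⟨M, rfl⟩ : ∃ M, N = M + 9 := ⟨N - 9, by omega⟩
        have : 2 * (M + 9) - 1 = 2 * M + 17 := by omega
        rw [this]
        nlinarith [sq_nonneg M, Nat.zero_le M]
      have e2 : (((N + 1) ^ 2 : ℕ) : ℝ) ≤ ((2 * N - 1 : ℕ) : ℝ) ^ 3 := by exact_mod_cast e1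
      have e3 : (0 : ℝ) ≤ ((2 * N - 1 : ℕ) : ℝ) := Nat.cast_nonneg _
      calc (((N + 1) ^ 2 : ℕ) : ℝ) ^ (1 / 3 : ℝ) ≤ (((2 * N - 1 : ℕ) : ℝ) ^ 3) ^ (1 / 3 : ℝ) := by
            gcongr
        _ = _ := by
          rw [← Real.rpow_natCast, ← Real.rpow_mul e3]
          norm_num
    have h := hX0 ((N + 1) ^ 2) (by nlinarith) (2 * N ^ 2 + 2 * N + 2)
      ⟨N ^ 2 + N + 1, by ring⟩ (by nlinarith) (by nlinarith [sq_nonneg (N + 1)]) (N ^ 2 + 2) (2 * N - 1) hY l T
      (by rw [hVeq]; exact hlT)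
    rw [hVeq, G_eq N r l T (by omega)] at h
    have hx : 0 ≤ T * V N r := by positivity
    obtain ⟨c0, c1⟩ := Pt.C_le_one l _ hx
    obtain ⟨C, hC⟩ : ∃ C, C = ∑ j ∈ range l, Real.exp (-(T * V N r)) * (T * V N r) ^ j / j.factorial :=
      ⟨_, rfl⟩
    rw [← hC] at h c0 c1 ⊢
    obtain ⟨v, hv⟩ : ∃ v, v = V N r := ⟨_, rfl⟩
    rw [← hv] at h hVpos ⊢
    have hYR : ((2 * N - 1 : ℕ) : ℝ) = 2 * N - 1 := by
      rw [Nat.cast_sub (by omega)]
      push_cast
      rfl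
    rw [hYR] at h
    have hεN : 1 ≤ ε * N := by
      have : 1 / ε ≤ N := hN1.trans (by exact_mod_cast hNN1)
      rw [div_le_iff₀ hε] at this
      linarith
    have h4 : |(2 * (N : ℝ) - 1) * v * C - 2 * N * v * C| ≤ ε / 2 * (2 * N * v) := by
      have e1 : (2 * (N : ℝ) - 1) * v * C - 2 * N * v * C = -(v * C) := by ring
      rw [e1, abs_neg, abs_of_nonneg (by positivity)]
      calc v * C ≤ v * 1 := mul_le_mul_of_nonneg_left c1 hVpos.le
        _ = 1 * v := by ring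
        _ ≤ ε * N * v := mul_le_mul_of_nonneg_right hεN hVpos.le
        _ = _ := by ring
    have h5 : ε / 2 * ((2 * (N : ℝ) - 1) * v) ≤ ε / 2 * (2 * N * v) := by
      apply mul_le_mul_of_nonneg_left _ (by positivity)
      nlinarith
    calc |(G N r l T : ℝ) - 2 * N * v * C|
        = |((G N r l T : ℝ) - (2 * N - 1) * v * C) + ((2 * (N : ℝ) - 1) * v * C - 2 * N * v * C)| := by
          congr 1
          ring
      _ ≤ |(G N r l T : ℝ) - (2 * N - 1) * v * C| +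
          |(2 * (N : ℝ) - 1) * v * C - 2 * N * v * C| := abs_add_le _ _
      _ ≤ ε / 2 * (2 * N * v) + ε / 2 * (2 * N * v) := by linarith
      _ = _ := by ring

end Pool.Agent.Results.MP_e94e4b_nt.PairLawsEveryN
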