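import Pool.Agent.H225.PM

/-!
# The pairs `N ^ 2 + k + 1`, `(N + 1) ^ 2 - k` with `k` in sparse sets given by digits

Let `b ≥ 2` be a base and let `[M, M + b ^ K)` be any block contained in `[0, 2 N]`, where `b ^ K` is at
least a fixed (arbitrarily small) power of `N`.  Write `k = M + t` and let the digits of `t < b ^ K` be
restricted: the `i`-th digit belongs to a set `A i`, where the sets `A i` are arbitrary, depend on the
place `i < K`, and have the only property that the number `∏ |A i|` of these `k` is at least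
`e^{-δK} b^K`, where the constant `δ > 0` does not depend on `b`.

Then for EVERY such `N` the number of these `k` for which both `N ^ 2 + k + 1` and `(N + 1) ^ 2 - k` have
at most `r` prime factors, all larger than `b ^ (K / r)`, is at least `κ S(N) ∏ |A i| / K ^ 2` (if the
last digit can be chosen such that both numbers are prime to `b`), and the number of these `k` for which
both are primes is at most `C S(N) ∏ |A i| / K ^ 2`, where `S(N)` is the product of `(p - 1) / (p - 2)`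
over the odd primes dividing `2 N ^ 2 + 2 N + 2`.
-/

set_option autoImplicit false

namespace Pool.Agent.Results.MP_e94e4b_nt.RestrictedDigits

open Finset Filter

/-- The product of `(p - 1) / (p - 2)` over the odd prime factors `p` of `2 N ^ 2 + 2 N + 2`. -/
noncomputable def S (N : ℕ) : ℝ :=
  ∏ p ∈ Finset.filter (fun p : ℕ => 2 < p) (Nat.primeFactors (2 * N ^ 2 + 2 * N + 2)),
    ((p : ℝ) - 1) / ((p : ℝ) - 2)

open Classical in
/-- The number of the `t < b ^ K`, whose `i`-th digit in base `b` belongs to `A i` for all `i < K`, such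
that `M + t` belongs to `T`. -/
noncomputable def count (b K M : ℕ) (A : ℕ → Finset ℕ) (T : Set ℕ) : ℕ :=
  ((range (b ^ K)).filter (fun t => (∀ i < K, t / b ^ i % b ∈ A i) ∧ M + t ∈ T)).card

/-- The number of choices of the digits. -/
noncomputable def choices (K : ℕ) (A : ℕ → Finset ℕ) : ℝ := ∏ i ∈ range K, ((A i).card : ℝ)

/-- `m` has at most `r` prime factors, counted with multiplicity, and all of them are larger than
`z ^ (1 / r)`. -/
def AlmostPrime (r z m : ℕ) : Prop :=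
  (∀ p : ℕ, p.Prime → p ∣ m → z < p ^ r) ∧ m.primeFactorsList.length ≤ r

open Pool.Agent.Y816.PD (ND ND_sub)

/-- **Prime pairs between consecutive squares with fixed sum: `k` with restricted digits.** -/
theorem result (D : ℕ) :
    ∃ δ : ℝ, 0 < δ ∧ ∃ r₀ : ℕ, 2 ≤ r₀ ∧ ∀ r : ℕ, r₀ ≤ r → ∀ b : ℕ, 2 ≤ b →
      ∃ κ C : ℝ, 0 < κ ∧ 0 < C ∧ ∀ᶠ K : ℕ in atTop, ∀ N M : ℕ, M + b ^ K ≤ 2 * N + 1 →
        N ≤ b ^ (D * K) → ∀ A : ℕ → Finset ℕ, (∀ i < K, A i ⊆ range b) →
        (b : ℝ) ^ K ≤ Real.exp (δ * K) * choices K A →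
        ((∃ e ∈ A 0, (N ^ 2 + (M + e) + 1).Coprime b ∧ ((N + 1) ^ 2 - (M + e)).Coprime b) →
          (∃ e ∈ A (K - 1), e ≠ 0) →
          κ * S N * choices K A / (K : ℝ) ^ 2 ≤
            count b K M A {k | 2 ≤ k ∧ k ≤ 2 * N ∧ AlmostPrime r (b ^ K) (N ^ 2 + k + 1) ∧
              AlmostPrime r (b ^ K) ((N + 1) ^ 2 - k)}) ∧
        (count b K M A {k | (N ^ 2 + k + 1).Prime ∧ ((N + 1) ^ 2 - k).Prime} : ℝ) ≤
          C * S N * choices K A / (K : ℝ) ^ 2 := by
  classical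
  obtain ⟨δ, hδ, r₀, hr₀, h⟩ := Pool.Agent.H225.PM.pm (2 * D + 2)
  refine ⟨δ, hδ, r₀, hr₀, fun r hr b hb => ?_⟩
  obtain ⟨κ, C, hκ, hC, h1⟩ := h r hr b hb
  refine ⟨κ, C, hκ, hC, ?_⟩
  filter_upwards [h1, eventually_ge_atTop 2] with K hK hK2 N M hM hN A hA hprod
  have hbK : 2 ≤ b ^ K := hb.trans (Nat.le_self_pow (by omega) b)
  have hbK1 : 2 ≤ b ^ (K - 1) := hb.trans (Nat.le_self_pow (by omega) b)
  have hsq : (N + 1) ^ 2 = N ^ 2 + 2 * N + 1 := by ring
  have hbb : b ^ ((2 * D + 2) * K) = (b ^ (D * K) * b ^ K) ^ 2 := by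
    rw [← pow_add, ← pow_mul]
    congr 1
    ring
  have hsz : (N + 1) ^ 2 ≤ b ^ ((2 * D + 2) * K) := by
    rw [hbb]
    refine Nat.pow_le_pow_left ?_ 2
    have h2 : b ^ (D * K) * 2 ≤ b ^ (D * K) * b ^ K := Nat.mul_le_mul_left _ hbK
    have h3 : 1 ≤ b ^ (D * K) := Nat.one_le_pow _ _ (by omega)
    omega
  have hsum : N ^ 2 + M + 1 + ((N + 1) ^ 2 - M) = 2 * N ^ 2 + 2 * N + 2 := by omega
  obtain ⟨h4, h5⟩ := hK (N ^ 2 + M + 1) ((N + 1) ^ 2 - M)
    (by rw [hsum]; exact ⟨N ^ 2 + N + 1, by ring⟩) (by omega) (by omega) (by omega) A hA hprod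
  rw [hsum] at h4 h5
  have hv1 : ∀ t, N ^ 2 + M + 1 + t = N ^ 2 + (M + t) + 1 := fun t => by ring
  have hv2 : ∀ t, (N + 1) ^ 2 - M - t = (N + 1) ^ 2 - (M + t) := fun t => by omega
  constructor
  · rintro ⟨e, he, hc1, hc2⟩ htop
    refine (h4 ⟨e, he, ?_, ?_⟩ htop).trans (Nat.cast_le.2 (ND_sub fun t ht ht1 ht2 => ⟨ht1, ?_⟩))
    · rw [hv1]
      exact hc1
    · rw [hv2]
      exact hc2
    · obtain ⟨h6, h7, h8⟩ := ht2
      refine ⟨by omega, by omega, ?_, ?_⟩
      · rw [hv1] at h7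
        exact h7
      · rw [hv2] at h8
        exact h8
  · refine le_trans (Nat.cast_le.2 (ND_sub fun t ht ht1 ht2 => ⟨ht1, ?_⟩)) h5
    refine ⟨?_, ?_, ?_⟩
    · rw [hv1]
      exact ht2.1
    · rw [hv2]
      exact ht2.2
    · rw [hv2]
      have h9 : N ^ 2 + 1 ≤ (N + 1) ^ 2 - (M + t) := by omega
      have h10 : (N ^ 2 + 1) ^ 2 ≤ ((N + 1) ^ 2 - (M + t)) ^ 2 := Nat.pow_le_pow_left h9 2
      refine lt_of_lt_of_le ?_ h10
      nlinarith [sq_nonneg (N : ℤ)]

end Pool.Agent.Results.MP_e94e4b_nt.RestrictedDigits
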